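import Pool.Agent.helper2.Fermat.Sharp

/-!
# The inequality `(k 2 ^ n + 1) ^ n < k ^ (2 ^ m)` for divisors of Fermat numbers
-/

set_option autoImplicit false

namespace Pool.Agent.helper2.Fermat

/-- prime factors of `F_m` are `1` modulo `2 ^ (m + 1)` -/
theorem prime_modEq (m p : ℕ) (hp : p.Prime) (hd : p ∣ 2 ^ (2 ^ m) + 1) :
    p ≡ 1 [MOD 2 ^ (m + 1)] := by
  have hp2 : p ≠ 2 := by
    rintro rfl
    have h1 : Even (2 ^ (2 ^ m) + 1) := even_iff_two_dvd.2 hd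
    have h2 : Odd (2 ^ (2 ^ m) + 1) := Even.add_one (Nat.even_pow.2 ⟨even_two, by positivity⟩)
    exact (Nat.not_even_iff_odd.2 h2) h1
  have hpge : 3 ≤ p := by
    have := hp.two_le
    omega
  have : Fact p.Prime := ⟨hp⟩
  have : Fact (2 < p) := ⟨by omega⟩
  have h2pow : (2 : ZMod p) ^ (2 ^ m) = -1 := by
    have h : ((2 ^ (2 ^ m) + 1 : ℕ) : ZMod p) = 0 := (ZMod.natCast_eq_zero_iff _ _).2 hd
    push_cast at h
    exact eq_neg_of_add_eq_zero_left h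
  have hne : (-1 : ZMod p) ≠ 1 := ZMod.neg_one_ne_one
  have : Fact (Nat.Prime 2) := ⟨Nat.prime_two⟩
  have hord : orderOf (2 : ZMod p) = 2 ^ (m + 1) := by
    apply orderOf_eq_prime_pow
    · rw [h2pow]; exact hne
    · rw [pow_succ, pow_mul, h2pow]; norm_num
  have h20 : (2 : ZMod p) ≠ 0 := by
    intro h
    rw [h, zero_pow (by positivity)] at h2pow
    exact (neg_ne_zero.2 one_ne_zero) h2pow.symm
  have h1 : (2 : ZMod p) ^ (p - 1) = 1 := ZMod.pow_card_sub_one_eq_one h20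
  have h2 : 2 ^ (m + 1) ∣ p - 1 := by
    rw [← hord]
    exact orderOf_dvd_of_pow_eq_one h1
  exact ((Nat.modEq_iff_dvd' (by omega)).2 h2).symm

/-- divisors of `F_m` are `1` modulo `2 ^ (m + 1)` -/
theorem dvd_modEq (m D : ℕ) (hd : D ∣ 2 ^ (2 ^ m) + 1) : D ≡ 1 [MOD 2 ^ (m + 1)] := by
  induction D using Nat.recOnMul with
  | zero =>
    rw [zero_dvd_iff] at hd
    have : 0 < 2 ^ (2 ^ m) + 1 := by positivity
    omega
  | one => rfl
  | prime p hp => exact prime_modEq m p hp hd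
  | mul a b iha ihb =>
    have h1 := iha ((Dvd.intro _ rfl).trans hd)
    have h2 := ihb ((Dvd.intro_left _ rfl).trans hd)
    exact h1.mul h2

theorem le_exponent (m k n : ℕ) (hk : Odd k) (hd : k * 2 ^ n + 1 ∣ 2 ^ (2 ^ m) + 1) :
    m + 1 ≤ n := by
  have h1 := dvd_modEq m _ hd
  have h2 : 2 ^ (m + 1) ∣ k * 2 ^ n := by
    have := (Nat.modEq_iff_dvd' (show 1 ≤ k * 2 ^ n + 1 by omega)).1 h1.symm
    simpa using this
  have h3 : Nat.Coprime (2 ^ (m + 1)) k := by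
    apply Nat.Coprime.pow_left
    rw [Nat.coprime_two_left]
    exact hk
  have h4 : 2 ^ (m + 1) ∣ 2 ^ n := h3.dvd_of_dvd_mul_left h2
  exact (Nat.pow_dvd_pow_iff_le_right (by norm_num)).1 h4

/-- `F_m` is prime for `m ≤ 4` -/
theorem small_prime (m : ℕ) (hm : m ≤ 4) : (2 ^ (2 ^ m) + 1).Prime := by
  interval_cases m <;> norm_num

theorem five_le (m k n : ℕ) (hk1 : 1 < k) (hk : Odd k)
    (hd : k * 2 ^ n + 1 ∣ 2 ^ (2 ^ m) + 1) : 5 ≤ m := by
  by_contra hcon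
  have h1 := small_prime m (by omega)
  have hn := le_exponent m k n hk hd
  rcases (Nat.dvd_prime h1).1 hd with h | h
  · have : 0 < k * 2 ^ n := by positivity
    omega
  · have h2 : k * 2 ^ n = 2 ^ (2 ^ m) := by omega
    have h3 : k ∣ 2 ^ (2 ^ m) := ⟨2 ^ n, h2.symm⟩
    rw [Nat.dvd_prime_pow Nat.prime_two] at h3
    obtain ⟨j, _, hj⟩ := h3
    rcases Nat.eq_zero_or_pos j with h0 | h0
    · rw [h0, pow_zero] at hj
      omega
    · rw [hj] at hk
      exact (Nat.not_even_iff_odd.2 hk) (Nat.even_pow.2 ⟨even_two, h0.ne'⟩)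

/-- the sharp inequality without the condition on `n` -/
theorem sharp' (m k n : ℕ) (hk : Odd k) (hk1 : 1 < k)
    (hd : k * 2 ^ n + 1 ∣ 2 ^ (2 ^ m) + 1) :
    (Real.log ((k * 2 ^ n + 1 : ℕ) : ℝ) - Real.log k) * Real.log ((k * 2 ^ n + 1 : ℕ) : ℝ) ≤
      2 ^ m * Real.log 2 * Real.log k := by
  have h5 := five_le m k n hk1 hk hd
  have hn := le_exponent m k n hk hd
  exact sharp m k n _ rfl hd hk hk1 (by omega)

/-- If `k > 1` is odd and `k 2 ^ n + 1` divides `F_m` then `(k 2 ^ n + 1) ^ n < k ^ (2 ^ m)`. -/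
theorem sharp_pow (m k n : ℕ) (hk : Odd k) (hk1 : 1 < k)
    (hd : k * 2 ^ n + 1 ∣ 2 ^ (2 ^ m) + 1) : (k * 2 ^ n + 1) ^ n < k ^ 2 ^ m := by
  have h1 := sharp' m k n hk hk1 hd
  have hk0 : (0 : ℝ) < k := by exact_mod_cast (by omega : 0 < k)
  have hl2 : 0 < Real.log 2 := Real.log_pos (by norm_num)
  have hDr : ((k * 2 ^ n + 1 : ℕ) : ℝ) = k * 2 ^ n + 1 := by push_cast; ring
  have hD0 : (0 : ℝ) < ((k * 2 ^ n + 1 : ℕ) : ℝ) := by positivity
  have hDbig : 1 < ((k * 2 ^ n + 1 : ℕ) : ℝ) := by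
    rw [hDr]
    have : (0 : ℝ) < k * 2 ^ n := by positivity
    linarith
  have hlD : 0 < Real.log ((k * 2 ^ n + 1 : ℕ) : ℝ) := Real.log_pos hDbig
  have h2 : n * Real.log 2 < Real.log ((k * 2 ^ n + 1 : ℕ) : ℝ) - Real.log k := by
    have h3 : Real.log ((k : ℝ) * 2 ^ n) < Real.log ((k * 2 ^ n + 1 : ℕ) : ℝ) := by
      apply Real.log_lt_log (by positivity)
      rw [hDr]
      linarith
    rw [Real.log_mul (by positivity) (by positivity), Real.log_pow] at h3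
    linarith
  have h4 : n * Real.log 2 * Real.log ((k * 2 ^ n + 1 : ℕ) : ℝ) <
      2 ^ m * Real.log 2 * Real.log k :=
    lt_of_lt_of_le (mul_lt_mul_of_pos_right h2 hlD) h1
  have h5 : n * Real.log ((k * 2 ^ n + 1 : ℕ) : ℝ) < 2 ^ m * Real.log k := by
    by_contra hcon
    push Not at hcon
    have := mul_le_mul_of_nonneg_right hcon hl2.le
    linarith
  have h6 : Real.log (((k * 2 ^ n + 1 : ℕ) : ℝ) ^ n) < Real.log ((k : ℝ) ^ 2 ^ m) := by
    rw [Real.log_pow, Real.log_pow]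
    push_cast at h5 ⊢
    exact h5
  have h7 : ((k * 2 ^ n + 1 : ℕ) : ℝ) ^ n < (k : ℝ) ^ 2 ^ m :=
    (Real.log_lt_log_iff (by positivity) (by positivity)).1 h6
  exact_mod_cast h7

end Pool.Agent.helper2.Fermat
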