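import Pool.Agent.helper2.Fermat.Real

namespace Pool.Agent.helper2.Fermat

open Finset

/-- the exponent of `2` in `p - 1` -/
noncomputable def ex (p : ℕ) : ℕ := (p - 1).factorization 2

/-- the odd part of `p - 1` -/
noncomputable def od (p : ℕ) : ℕ := (p - 1) / 2 ^ (p - 1).factorization 2

theorem fermat_odd (m : ℕ) : Odd (2 ^ (2 ^ m) + 1) :=
  Even.add_one (Nat.even_pow.2 ⟨even_two, by positivity⟩)

theorem prime_factor (m p : ℕ) (hp : p.Prime) (hd : p ∣ 2 ^ (2 ^ m) + 1)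
    (hF : ¬ (2 ^ (2 ^ m) + 1).Prime) :
    Odd (od p) ∧ 1 < od p ∧ p = od p * 2 ^ ex p + 1 := by
  have hp2 : p ≠ 2 := by
    rintro rfl
    exact (Nat.not_even_iff_odd.2 (fermat_odd m)) (even_iff_two_dvd.2 hd)
  have hp3 : 3 ≤ p := by
    have := hp.two_le
    omega
  have hpp : p - 1 ≠ 0 := by omega
  have heq : p = od p * 2 ^ ex p + 1 := by
    have := Nat.ordProj_mul_ordCompl_eq_self (p - 1) 2
    unfold od ex
    rw [mul_comm]
    omega
  have hodd : Odd (od p) := by
    rw [← Nat.not_even_iff_odd, even_iff_two_dvd]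
    exact Nat.not_dvd_ordCompl Nat.prime_two hpp
  refine ⟨hodd, ?_, heq⟩
  by_contra hle
  have h1 : od p = 1 := by
    have := hodd.pos
    omega
  rw [h1, one_mul] at heq
  have : Fact p.Prime := ⟨hp⟩
  have : Fact (2 < p) := ⟨by omega⟩
  have h2pow : (2 : ZMod p) ^ (2 ^ m) = -1 := by
    have h : ((2 ^ (2 ^ m) + 1 : ℕ) : ZMod p) = 0 := (ZMod.natCast_eq_zero_iff _ _).2 hd
    push_cast at h
    exact eq_neg_of_add_eq_zero_left h
  have h2n : (2 : ZMod p) ^ (ex p) = -1 := by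
    have h : ((2 ^ (ex p) + 1 : ℕ) : ZMod p) = 0 :=
      (ZMod.natCast_eq_zero_iff _ _).2 (by rw [← heq])
    push_cast at h
    exact eq_neg_of_add_eq_zero_left h
  have hne : (-1 : ZMod p) ≠ 1 := ZMod.neg_one_ne_one
  have : Fact (Nat.Prime 2) := ⟨Nat.prime_two⟩
  have hord : orderOf (2 : ZMod p) = 2 ^ (m + 1) := by
    apply orderOf_eq_prime_pow
    · rw [h2pow]; exact hne
    · rw [pow_succ, pow_mul, h2pow]; norm_num
  have hdvd : 2 ^ (m + 1) ∣ 2 * ex p := by
    rw [← hord]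
    apply orderOf_dvd_of_pow_eq_one
    rw [mul_comm, pow_mul, h2n]; norm_num
  have hdvd' : 2 ^ m ∣ ex p := by
    rw [pow_succ, mul_comm] at hdvd
    exact Nat.dvd_of_mul_dvd_mul_left (by norm_num) hdvd
  have hex0 : ex p ≠ 0 := by
    intro h0
    rw [h0] at heq
    omega
  have hle' : 2 ^ m ≤ ex p := Nat.le_of_dvd (Nat.pos_of_ne_zero hex0) hdvd'
  have hge : 2 ^ (2 ^ m) + 1 ≤ p := by
    rw [heq]
    exact Nat.succ_le_succ (Nat.pow_le_pow_right (by norm_num) hle')
  have hle2 : p ≤ 2 ^ (2 ^ m) + 1 := Nat.le_of_dvd (by positivity) hd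
  have : p = 2 ^ (2 ^ m) + 1 := le_antisymm hle2 hge
  exact hF (this ▸ hp)

/-- product formula for `φ (F_m)` -/
theorem totient_fermat (m : ℕ) (hF : ¬ (2 ^ (2 ^ m) + 1).Prime) :
    Nat.totient (2 ^ (2 ^ m) + 1) =
      2 ^ (∑ p ∈ (2 ^ (2 ^ m) + 1).primeFactors, ex p) *
      ∏ p ∈ (2 ^ (2 ^ m) + 1).primeFactors,
        (p ^ ((2 ^ (2 ^ m) + 1).factorization p - 1) * od p) := by
  set F := 2 ^ (2 ^ m) + 1 with hFdef
  have hF0 : F ≠ 0 := by positivity
  rw [Nat.totient_eq_prod_factorization hF0, Finsupp.prod, Nat.support_factorization,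
    ← Finset.prod_pow_eq_pow_sum, ← Finset.prod_mul_distrib]
  refine Finset.prod_congr rfl fun p hp => ?_
  have hp' := Nat.mem_primeFactors.1 hp
  obtain ⟨-, -, heq⟩ := prime_factor m p hp'.1 hp'.2.1 hF
  have : p - 1 = od p * 2 ^ ex p := by omega
  rw [this]; ring

theorem oddpart_totient (m : ℕ) (hF : ¬ (2 ^ (2 ^ m) + 1).Prime) :
    Nat.totient (2 ^ (2 ^ m) + 1) / 2 ^ (Nat.totient (2 ^ (2 ^ m) + 1)).factorization 2 =
      ∏ p ∈ (2 ^ (2 ^ m) + 1).primeFactors,
        (p ^ ((2 ^ (2 ^ m) + 1).factorization p - 1) * od p) := by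
  set A := ∏ p ∈ (2 ^ (2 ^ m) + 1).primeFactors,
        (p ^ ((2 ^ (2 ^ m) + 1).factorization p - 1) * od p) with hA
  have hAodd : Odd A := by
    rw [hA]
    apply Finset.prod_induction _ Odd (fun a b ha hb => ha.mul hb) odd_one
    intro p hp
    have hp' := Nat.mem_primeFactors.1 hp
    have h := prime_factor m p hp'.1 hp'.2.1 hF
    have hpodd : Odd p := Odd.of_dvd_nat (fermat_odd m) hp'.2.1
    exact hpodd.pow.mul h.1
  have htot := totient_fermat m hF
  rw [← hA] at htot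
  have hA0 : A ≠ 0 := hAodd.pos.ne'
  have hfac : (Nat.totient (2 ^ (2 ^ m) + 1)).factorization 2
      = ∑ p ∈ (2 ^ (2 ^ m) + 1).primeFactors, ex p := by
    rw [htot, Nat.factorization_mul (by positivity) hA0]
    have h2 : A.factorization 2 = 0 :=
      Nat.factorization_eq_zero_of_not_dvd (by
        rw [← even_iff_two_dvd, Nat.not_even_iff_odd]; exact hAodd)
    simp [Nat.Prime.factorization_pow Nat.prime_two, h2]
  rw [hfac, htot]
  exact Nat.mul_div_cancel_left _ (by positivity)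

/-- the real-number core of the argument, for an abstract finite family -/
theorem core (m : ℕ) (P : Finset ℕ) (κ τ L e : ℕ → ℝ) (hcard : 1 ≤ (P.card : ℝ))
    (hκ0 : ∀ p ∈ P, 0 ≤ κ p) (hτ0 : ∀ p ∈ P, 0 ≤ τ p)
    (hF1 : (2 : ℝ) ^ m ≤ ∑ p ∈ P, (τ p + L p))
    (hlogp : ∀ p ∈ P, L p ≤ e p + 2 * κ p)
    (hlat : ∀ p ∈ P, e p + κ p ≤ √(2 ^ (m + 3)) * √(κ p)) :
    (2 : ℝ) ^ m / 10 ≤ P.card * ∑ p ∈ P, (τ p + κ p) := by
  obtain ⟨lam, hlam⟩ : ∃ lam, lam = ∑ p ∈ P, (τ p + κ p) := ⟨_, rfl⟩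
  obtain ⟨S, hS⟩ : ∃ S, S = ∑ p ∈ P, κ p := ⟨_, rfl⟩
  obtain ⟨c, hc⟩ : ∃ c : ℝ, c = P.card := ⟨_, rfl⟩
  obtain ⟨M, hM⟩ : ∃ M : ℝ, M = 2 ^ m := ⟨_, rfl⟩
  have hS0 : 0 ≤ S := by rw [hS]; exact Finset.sum_nonneg hκ0
  have hT0 : 0 ≤ ∑ p ∈ P, τ p := Finset.sum_nonneg hτ0
  have hlamS : lam = ∑ p ∈ P, τ p + S := by rw [hlam, Finset.sum_add_distrib, hS]
  have hCS : (∑ p ∈ P, √(κ p)) ≤ √(c * S) := by
    apply Real.le_sqrt_of_sq_le
    refine (sq_sum_le_card_mul_sum_sq (s := P) (f := fun p => √(κ p))).trans ?_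
    rw [hc, hS]
    refine mul_le_mul_of_nonneg_left ?_ (Nat.cast_nonneg _)
    refine Finset.sum_le_sum fun p hp => ?_
    rw [Real.sq_sqrt (hκ0 p hp)]
  have hmain : M ≤ √(2 ^ (m + 3)) * √(c * S) + lam := by
    calc M ≤ ∑ p ∈ P, (τ p + L p) := by rw [hM]; exact hF1
      _ ≤ ∑ p ∈ P, (τ p + (√(2 ^ (m + 3)) * √(κ p) + κ p)) := by
          refine Finset.sum_le_sum fun p hp => ?_
          have h1 := hlogp p hp
          have h2 := hlat p hp
          linarith
      _ = √(2 ^ (m + 3)) * (∑ p ∈ P, √(κ p)) + lam := by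
          rw [Finset.sum_add_distrib, Finset.sum_add_distrib, ← Finset.mul_sum, hlamS, hS]; ring
      _ ≤ √(2 ^ (m + 3)) * √(c * S) + lam :=
          add_le_add (mul_le_mul_of_nonneg_left hCS (Real.sqrt_nonneg _)) le_rfl
  rw [← hlam, ← hc, ← hM]
  rw [← hc] at hcard
  by_contra hcon
  push Not at hcon
  have hlam0 : 0 ≤ lam := by rw [hlamS]; positivity
  have hSlam : S ≤ lam := by rw [hlamS]; linarith
  have hpow : (0 : ℝ) < M := by rw [hM]; positivity
  have e8 : (2 : ℝ) ^ (m + 3) = 8 * M := by rw [hM]; ring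
  rw [e8] at hmain
  have h1 : √(8 * M) * √(c * S) ≤ M * √(4 / 5) := by
    rw [← Real.sqrt_mul (by positivity)]
    have : M * √(4 / 5) = √(M ^ 2 * (4 / 5)) := by
      rw [Real.sqrt_mul (by positivity), Real.sqrt_sq hpow.le]
    rw [this]
    apply Real.sqrt_le_sqrt
    have h2 : c * S ≤ M / 10 := by
      calc c * S ≤ c * lam := mul_le_mul_of_nonneg_left hSlam (by linarith)
        _ ≤ M / 10 := hcon.le
    calc 8 * M * (c * S) ≤ 8 * M * (M / 10) := mul_le_mul_of_nonneg_left h2 (by positivity)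
      _ = M ^ 2 * (4 / 5) := by ring
  have h2 : lam ≤ M / 10 := by
    calc lam = 1 * lam := (one_mul _).symm
      _ ≤ c * lam := mul_le_mul_of_nonneg_right hcard hlam0
      _ ≤ M / 10 := hcon.le
  have h3 : √(4 / 5 : ℝ) < 9 / 10 := by
    rw [Real.sqrt_lt' (by norm_num)]; norm_num
  nlinarith

/-- Every composite Fermat number: weighted inequality. -/
theorem gap_mul (m F : ℕ) (hFdef : F = 2 ^ (2 ^ m) + 1) (hF : ¬ F.Prime) :
    3 ^ F.primeFactors.card ≤ F.totient / 2 ^ F.totient.factorization 2 ∧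
    (2 : ℝ) ^ m / 10 ≤ F.primeFactors.card *
      Real.logb 2 ((F.totient / 2 ^ F.totient.factorization 2 : ℕ) : ℝ) := by
  have hO : F.totient / 2 ^ F.totient.factorization 2 = ∏ p ∈ F.primeFactors,
        (p ^ (F.factorization p - 1) * od p) := by
    rw [hFdef]; exact oddpart_totient m (hFdef ▸ hF)
  have hF0 : F ≠ 0 := by rw [hFdef]; positivity
  have hFbig : 2 ≤ F := by
    rw [hFdef]; exact Nat.succ_le_succ (Nat.one_le_two_pow)
  obtain ⟨P, hP⟩ : ∃ P, P = F.primeFactors := ⟨_, rfl⟩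
  have hpf : ∀ p ∈ P, p.Prime ∧ p ∣ F ∧ Odd (od p) ∧ 1 < od p ∧ p = od p * 2 ^ ex p + 1 := by
    intro p hp
    rw [hP] at hp
    have hp' := Nat.mem_primeFactors.1 hp
    have h := prime_factor m p hp'.1 (hFdef ▸ hp'.2.1) (hFdef ▸ hF)
    exact ⟨hp'.1, hp'.2.1, h⟩
  rw [← hP] at hO ⊢
  rw [hO]
  constructor
  · rw [← Finset.prod_const]
    refine Finset.prod_le_prod' fun p hp => ?_
    obtain ⟨h1, h2, h3, h4, h5⟩ := hpf p hp
    have : 3 ≤ od p := by
      obtain ⟨j, hj⟩ := h3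
      omega
    calc 3 ≤ od p := this
      _ ≤ p ^ (F.factorization p - 1) * od p := Nat.le_mul_of_pos_left _ (pow_pos h1.pos _)
  · have hκ1 : ∀ p ∈ P, 1 ≤ Real.logb 2 (od p) := by
      intro p hp
      obtain ⟨h1, h2, h3, h4, h5⟩ := hpf p hp
      rw [Real.le_logb_iff_rpow_le (by norm_num) (by
        have : 0 < od p := by omega
        exact_mod_cast this), Real.rpow_one]
      exact_mod_cast h4
    have hlam' : Real.logb 2 ((∏ p ∈ P, (p ^ (F.factorization p - 1) * od p) : ℕ) : ℝ)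
        = ∑ p ∈ P, ((F.factorization p - 1 : ℕ) * Real.logb 2 p + Real.logb 2 (od p)) := by
      push_cast
      rw [Real.logb_prod]
      · refine Finset.sum_congr rfl fun p hp => ?_
        obtain ⟨h1, h2, h3, h4, h5⟩ := hpf p hp
        have hpR : (0 : ℝ) < p := by exact_mod_cast h1.pos
        have hoR : (0 : ℝ) < od p := by exact_mod_cast (by omega : 0 < od p)
        rw [Real.logb_mul (by positivity) (by positivity), Real.logb_pow]
      · intro p hp
        obtain ⟨h1, h2, h3, h4, h5⟩ := hpf p hp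
        have hpR : (0 : ℝ) < p := by exact_mod_cast h1.pos
        have hoR : (0 : ℝ) < od p := by exact_mod_cast (by omega : 0 < od p)
        positivity
    rw [hlam']
    refine core m P (fun p => Real.logb 2 (od p))
      (fun p => (F.factorization p - 1 : ℕ) * Real.logb 2 p) (fun p => Real.logb 2 p)
      (fun p => (ex p : ℝ)) ?_ ?_ ?_ ?_ ?_ ?_
    · have : P.Nonempty := by
        rw [hP, Nat.nonempty_primeFactors]
        omega
      exact_mod_cast Finset.card_pos.2 this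
    · intro p hp
      exact zero_le_one.trans (hκ1 p hp)
    · intro p hp
      have := (hpf p hp).1.one_lt
      exact mul_nonneg (Nat.cast_nonneg _) (logb_pos_of_one_lt this).le
    · have hexp : ∀ p ∈ P, ((F.factorization p - 1 : ℕ) : ℝ) * Real.logb 2 p + Real.logb 2 p
          = (F.factorization p : ℝ) * Real.logb 2 p := by
        intro p hp
        have h1 : 1 ≤ F.factorization p :=
          ((hpf p hp).1.dvd_iff_one_le_factorization hF0).1 (hpf p hp).2.1
        rw [Nat.cast_sub h1]; push_cast; ring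
      rw [Finset.sum_congr rfl hexp]
      have e1 : Real.logb 2 (F : ℝ) = ∑ p ∈ P, (F.factorization p : ℝ) * Real.logb 2 p := by
        conv_lhs => rw [← Nat.prod_factorization_pow_eq_self hF0]
        rw [Finsupp.prod, Nat.support_factorization, ← hP]
        push_cast
        rw [Real.logb_prod]
        · refine Finset.sum_congr rfl fun p hp => ?_
          rw [Real.logb_pow]
        · intro p hp
          have := (hpf p hp).1.pos
          positivity
      rw [← e1]
      have hFpos : (0 : ℝ) < F := by exact_mod_cast (by omega : 0 < F)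
      rw [Real.le_logb_iff_rpow_le (by norm_num) hFpos]
      have e2 : (2 : ℝ) ^ ((2 : ℝ) ^ m) = ((2 ^ (2 ^ m) : ℕ) : ℝ) := by
        rw [show ((2 : ℝ) ^ m) = ((2 ^ m : ℕ) : ℝ) by push_cast; rfl, Real.rpow_natCast]
        push_cast; rfl
      rw [e2, Nat.cast_le, hFdef]
      exact Nat.le_succ _
    · intro p hp
      obtain ⟨h1, h2, h3, h4, h5⟩ := hpf p hp
      have hoR : (0 : ℝ) < od p := by exact_mod_cast (by omega : 0 < od p)
      have hle : (p : ℝ) ≤ 2 * (od p * 2 ^ ex p) := by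
        have : p ≤ 2 * (od p * 2 ^ ex p) := by
          have : 0 < od p * 2 ^ ex p := by positivity
          omega
        exact_mod_cast this
      have hpR : (0 : ℝ) < p := by exact_mod_cast h1.pos
      have h6 := Real.logb_le_logb_of_le (b := 2) (by norm_num) hpR hle
      rw [Real.logb_mul (by norm_num) (by positivity), Real.logb_mul (by positivity) (by positivity),
        Real.logb_pow, Real.logb_self_eq_one (by norm_num)] at h6
      have h7 := hκ1 p hp
      show Real.logb 2 p ≤ ex p + 2 * Real.logb 2 (od p)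
      linarith
    · intro p hp
      obtain ⟨h1, h2, h3, h4, h5⟩ := hpf p hp
      have h6 := lattice_real m (ex p) (od p) h3 h4 (by rw [← h5, ← hFdef]; exact h2)
      show (ex p : ℝ) + Real.logb 2 (od p) ≤ √(2 ^ (m + 3)) * √(Real.logb 2 (od p))
      rw [← Real.sqrt_mul (by positivity)]
      exact Real.le_sqrt_of_sq_le h6.le

end Pool.Agent.helper2.Fermat
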