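import Pool.Agent.helper2.Fermat.LatticeM

namespace Pool.Agent.helper2.FermatM

open Real

theorem logb_pos_of_one_lt {k : ℕ} (hk1 : 1 < k) : 0 < Real.logb 2 k :=
  Real.logb_pos (by norm_num) (by exact_mod_cast hk1)

/-- Real form of the lattice bound. -/
theorem lattice_gen_real (N D k J : ℕ) (hN : 0 < N) (hk : Odd k) (hk1 : 1 < k)
    (hdvd : D ∣ 2 ^ N + 1) (hkJ : (k : ZMod D) = 2 ^ J) :
    Real.logb 2 D ^ 2 < 8 * N * Real.logb 2 k := by
  set κ := Real.logb 2 k with hκ
  have hκ0 : 0 < κ := logb_pos_of_one_lt hk1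
  have hkR : (1 : ℝ) < k := by exact_mod_cast hk1
  have hDpos : 0 < D := Nat.pos_of_dvd_of_pos hdvd (by positivity)
  have hDR : (0 : ℝ) < D := by exact_mod_cast hDpos
  have hD1 : (1 : ℝ) ≤ D := by exact_mod_cast hDpos
  set M : ℝ := 2 * N with hM
  have hNR : (0 : ℝ) < N := by exact_mod_cast hN
  have hM0 : 0 < M := by positivity
  have hq0 : 0 < M / κ := by positivity
  set r := √(M / κ) with hr
  have hr0 : 0 < r := Real.sqrt_pos.2 hq0
  have hr2 : r * r = M / κ := Real.mul_self_sqrt hq0.le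
  set V := ⌈r⌉₊ with hV
  have hV0 : 0 < V := Nat.ceil_pos.2 hr0
  set U := (2 * N) / V + 1 with hU
  have hUV : (2 * N) < U * V := by
    rw [hU]
    have := Nat.lt_div_mul_add (a := (2 * N)) hV0
    linarith [this, (by ring : ((2 * N) / V + 1) * V = (2 * N) / V * V + V)]
  have h := lattice_gen N D k J U V hN hk hk1 hdvd hkJ (by rw [hU]; exact Nat.succ_pos _) hV0 hUV
  -- take logarithms
  have hlog : Real.logb 2 D < (U - 1 : ℕ) + ((V - 1 : ℕ) : ℝ) * κ := by
    have h1 : (D : ℝ) < ((2 ^ (U - 1) * k ^ (V - 1) : ℕ) : ℝ) := by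
      exact_mod_cast h
    push_cast at h1
    have h2 := Real.logb_lt_logb (b := 2) (by norm_num) hDR h1
    rw [Real.logb_mul (by positivity) (by positivity),
      Real.logb_pow, Real.logb_pow, Real.logb_self_eq_one (by norm_num)] at h2
    linarith
  -- bounds for `U` and `V`
  set s := √(M * κ) with hs
  have hs0 : 0 < s := Real.sqrt_pos.2 (by positivity)
  have hs2 : s * s = M * κ := Real.mul_self_sqrt (by positivity)
  have hrs : r * κ = s := by
    have e : (r * κ) * (r * κ) = s * s := by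
      rw [hs2]
      calc (r * κ) * (r * κ) = (r * r) * κ * κ := by ring
        _ = M * κ := by rw [hr2]; field_simp
    nlinarith [mul_pos hr0 hκ0, hs0]
  have hrs' : M / r = s := by
    rw [div_eq_iff hr0.ne', ← hrs]
    calc M = (M / κ) * κ := by field_simp
      _ = r * κ * r := by rw [← hr2]; ring
  have hVb : ((V - 1 : ℕ) : ℝ) ≤ r := by
    rw [Nat.cast_sub (by omega : 1 ≤ V)]
    have := Nat.ceil_lt_add_one hr0.le
    push_cast
    linarith
  have hUb : ((U - 1 : ℕ) : ℝ) ≤ s := by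
    have e : U - 1 = (2 * N) / V := by rw [hU]; exact Nat.add_sub_cancel _ _
    rw [e, ← hrs']
    calc (((2 * N) / V : ℕ) : ℝ) ≤ (((2 * N) : ℕ) : ℝ) / V := Nat.cast_div_le
      _ ≤ M / r := by
        rw [hM]; push_cast
        exact div_le_div_of_nonneg_left (by positivity) hr0 (Nat.le_ceil r)
  have hfin : Real.logb 2 D < 2 * s := by
    have : ((V - 1 : ℕ) : ℝ) * κ ≤ s := by
      calc ((V - 1 : ℕ) : ℝ) * κ ≤ r * κ := by gcongr
        _ = s := hrs
    linarith
  have hpos : 0 ≤ Real.logb 2 D := Real.logb_nonneg (by norm_num) hD1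
  calc Real.logb 2 D ^ 2 < (2 * s) ^ 2 := by
        apply pow_lt_pow_left₀ hfin hpos (by norm_num)
    _ = 4 * (s * s) := by ring
    _ = 8 * N * κ := by rw [hs2, hM]; ring

/-- The case of divisors `k * 2 ^ n + 1`. -/
theorem lattice_real (N n k : ℕ) (hN : 0 < N) (hk : Odd k) (hk1 : 1 < k)
    (hdvd : k * 2 ^ n + 1 ∣ 2 ^ N + 1) :
    ((n : ℝ) + Real.logb 2 k) ^ 2 < 8 * N * Real.logb 2 k := by
  have h := lattice_gen_real N (k * 2 ^ n + 1) k _ hN hk hk1 hdvd (proth_pow N n k hN hdvd)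
  have hκ0 : 0 < Real.logb 2 k := logb_pos_of_one_lt hk1
  have hkR : (1 : ℝ) < k := by exact_mod_cast hk1
  refine lt_of_le_of_lt ?_ h
  apply pow_le_pow_left₀ (by positivity)
  have h2 := Real.logb_le_logb_of_le (b := 2) (x := (k : ℝ) * 2 ^ n) (y := ((k * 2 ^ n + 1 : ℕ) : ℝ))
    (by norm_num) (by positivity) (by push_cast; linarith)
  rw [Real.logb_mul (by positivity) (by positivity), Real.logb_pow,
    Real.logb_self_eq_one (by norm_num)] at h2
  linarith

end Pool.Agent.helper2.FermatM
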