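import Pool.Agent.helper2.Fermat.Gap
import Pool.Agent.helper2.Fermat.RealM

namespace Pool.Agent.helper2.FermatM

open Finset Pool.Agent.helper2.Fermat

theorem two_pow_odd (M : ℕ) (hM : 0 < M) : Odd (2 ^ M + 1) :=
  Even.add_one (Nat.even_pow.2 ⟨even_two, hM.ne'⟩)

theorem prime_factorM (M p : ℕ) (hM : 0 < M) (hp : p.Prime) (hd : p ∣ 2 ^ M + 1) :
    2 < p ∧ Odd (od p) ∧ p = od p * 2 ^ ex p + 1 := by
  have hp2 : p ≠ 2 := by
    rintro rfl
    exact (Nat.not_even_iff_odd.2 (two_pow_odd M hM)) (even_iff_two_dvd.2 hd)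
  have hp3 : 3 ≤ p := by
    have := hp.two_le
    omega
  have hpp : p - 1 ≠ 0 := by omega
  have heq : p = od p * 2 ^ ex p + 1 := by
    have := Nat.ordProj_mul_ordCompl_eq_self (p - 1) 2
    unfold od ex
    rw [mul_comm]
    omega
  have hodd : Odd (od p) := by
    rw [← Nat.not_even_iff_odd, even_iff_two_dvd]
    exact Nat.not_dvd_ordCompl Nat.prime_two hpp
  exact ⟨hp3, hodd, heq⟩

/-- prime divisors of the form `2 ^ s + 1` -/
theorem one_case (M p : ℕ) (hM : 0 < M) (hp : p.Prime) (hd : p ∣ 2 ^ M + 1)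
    (hF : ¬ (2 ^ M + 1).Prime) (hod : od p = 1) :
    ex p = 2 ^ M.factorization 2 ∧ 3 * ex p ≤ M := by
  obtain ⟨hp3, -, heq⟩ := prime_factorM M p hM hp hd
  rw [hod, one_mul] at heq
  have hex0 : ex p ≠ 0 := by
    intro h0
    rw [h0] at heq
    omega
  obtain ⟨t, ht⟩ := Nat.pow_of_pow_add_prime (a := 2) (n := ex p) (by norm_num) hex0
    (by rw [← heq]; exact hp)
  have : Fact p.Prime := ⟨hp⟩
  have : Fact (2 < p) := ⟨hp3⟩
  have h2pow : (2 : ZMod p) ^ M = -1 := by
    have h : ((2 ^ M + 1 : ℕ) : ZMod p) = 0 := (ZMod.natCast_eq_zero_iff _ _).2 hd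
    push_cast at h
    exact eq_neg_of_add_eq_zero_left h
  have h2n : (2 : ZMod p) ^ (2 ^ t) = -1 := by
    have h : ((2 ^ (ex p) + 1 : ℕ) : ZMod p) = 0 :=
      (ZMod.natCast_eq_zero_iff _ _).2 (by rw [← heq])
    push_cast at h
    rw [ht] at h
    exact eq_neg_of_add_eq_zero_left h
  have hne : (-1 : ZMod p) ≠ 1 := ZMod.neg_one_ne_one
  have : Fact (Nat.Prime 2) := ⟨Nat.prime_two⟩
  have hord : orderOf (2 : ZMod p) = 2 ^ (t + 1) := by
    apply orderOf_eq_prime_pow
    · rw [h2n]; exact hne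
    · rw [pow_succ, pow_mul, h2n]; norm_num
  have hdvd : 2 ^ (t + 1) ∣ 2 * M := by
    rw [← hord]
    apply orderOf_dvd_of_pow_eq_one
    rw [mul_comm, pow_mul, h2pow]; norm_num
  have hdvd' : 2 ^ t ∣ M := by
    rw [pow_succ, mul_comm] at hdvd
    exact Nat.dvd_of_mul_dvd_mul_left (by norm_num) hdvd
  obtain ⟨c, hc⟩ := hdvd'
  have hcodd : Odd c := by
    rw [← Nat.not_even_iff_odd]
    intro hce
    rw [hc, pow_mul, h2n, hce.neg_one_pow] at h2pow
    exact hne h2pow.symm
  have hc1 : c ≠ 1 := by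
    rintro rfl
    rw [mul_one, ← ht] at hc
    rw [hc, ← heq] at hF
    exact hF hp
  have hc3 : 3 ≤ c := by
    obtain ⟨i, hi⟩ := hcodd
    omega
  have hfac : M.factorization 2 = t := by
    rw [hc, Nat.factorization_mul (by positivity) (by omega)]
    have h2 : c.factorization 2 = 0 :=
      Nat.factorization_eq_zero_of_not_dvd (by
        rw [← even_iff_two_dvd, Nat.not_even_iff_odd]; exact hcodd)
    simp [Nat.Prime.factorization_pow Nat.prime_two, h2]
  refine ⟨by rw [ht, hfac], ?_⟩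
  rw [ht, hc]
  nlinarith [Nat.pos_of_ne_zero (pow_ne_zero t (two_ne_zero (α := ℕ)))]

/-- product formula for `φ (2 ^ M + 1)` -/
theorem totient_M (M : ℕ) (hM : 0 < M) :
    Nat.totient (2 ^ M + 1) =
      2 ^ (∑ p ∈ (2 ^ M + 1).primeFactors, ex p) *
      ∏ p ∈ (2 ^ M + 1).primeFactors,
        (p ^ ((2 ^ M + 1).factorization p - 1) * od p) := by
  set F := 2 ^ M + 1 with hFdef
  have hF0 : F ≠ 0 := by positivity
  rw [Nat.totient_eq_prod_factorization hF0, Finsupp.prod, Nat.support_factorization,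
    ← Finset.prod_pow_eq_pow_sum, ← Finset.prod_mul_distrib]
  refine Finset.prod_congr rfl fun p hp => ?_
  have hp' := Nat.mem_primeFactors.1 hp
  obtain ⟨-, -, heq⟩ := prime_factorM M p hM hp'.1 hp'.2.1
  have : p - 1 = od p * 2 ^ ex p := by omega
  rw [this]; ring

theorem oddpart_totientM (M : ℕ) (hM : 0 < M) :
    Nat.totient (2 ^ M + 1) / 2 ^ (Nat.totient (2 ^ M + 1)).factorization 2 =
      ∏ p ∈ (2 ^ M + 1).primeFactors,
        (p ^ ((2 ^ M + 1).factorization p - 1) * od p) := by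
  set A := ∏ p ∈ (2 ^ M + 1).primeFactors,
        (p ^ ((2 ^ M + 1).factorization p - 1) * od p) with hA
  have hAodd : Odd A := by
    rw [hA]
    apply Finset.prod_induction _ Odd (fun a b ha hb => ha.mul hb) odd_one
    intro p hp
    have hp' := Nat.mem_primeFactors.1 hp
    have h := prime_factorM M p hM hp'.1 hp'.2.1
    have hpodd : Odd p := Odd.of_dvd_nat (two_pow_odd M hM) hp'.2.1
    exact hpodd.pow.mul h.2.1
  have htot := totient_M M hM
  rw [← hA] at htot
  have hA0 : A ≠ 0 := hAodd.pos.ne'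
  have hfac : (Nat.totient (2 ^ M + 1)).factorization 2
      = ∑ p ∈ (2 ^ M + 1).primeFactors, ex p := by
    rw [htot, Nat.factorization_mul (by positivity) hA0]
    have h2 : A.factorization 2 = 0 :=
      Nat.factorization_eq_zero_of_not_dvd (by
        rw [← even_iff_two_dvd, Nat.not_even_iff_odd]; exact hAodd)
    simp [Nat.Prime.factorization_pow Nat.prime_two, h2]
  rw [hfac, htot]
  exact Nat.mul_div_cancel_left _ (by positivity)

/-- the real-number core, for an abstract finite family `P` with an exceptional part `P1` of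
at most one element -/
theorem coreM (M : ℝ) (hM : 24 ≤ M) (P P1 P2 : Finset ℕ) (hP : P = P1 ∪ P2)
    (hdisj : Disjoint P1 P2) (κ τ L e : ℕ → ℝ) (hcard : P1.card ≤ 1)
    (hκ1 : ∀ p ∈ P1, κ p = 0)
    (hκ0 : ∀ p ∈ P2, 0 ≤ κ p) (hτ0 : ∀ p ∈ P, 0 ≤ τ p)
    (hF1 : M ≤ ∑ p ∈ P, (τ p + L p))
    (hL1 : ∀ p ∈ P1, L p ≤ M / 3 + 1)
    (hlogp : ∀ p ∈ P2, L p ≤ e p + 2 * κ p)
    (hlat : ∀ p ∈ P2, e p + κ p ≤ √(8 * M) * √(κ p)) :
    (P2.card = 0 ∧ M * (5 / 8) ≤ ∑ p ∈ P, (τ p + κ p)) ∨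
    M / 24 ≤ P2.card * ∑ p ∈ P, (τ p + κ p) := by
  obtain ⟨lam, hlam⟩ : ∃ lam, lam = ∑ p ∈ P, (τ p + κ p) := ⟨_, rfl⟩
  obtain ⟨S, hS⟩ : ∃ S, S = ∑ p ∈ P2, κ p := ⟨_, rfl⟩
  obtain ⟨c, hc⟩ : ∃ c : ℝ, c = P2.card := ⟨_, rfl⟩
  have hc0 : 0 ≤ c := by rw [hc]; exact Nat.cast_nonneg _
  have hS0 : 0 ≤ S := by rw [hS]; exact Finset.sum_nonneg hκ0
  have hT0 : 0 ≤ ∑ p ∈ P, τ p := Finset.sum_nonneg hτ0
  have hκP : ∑ p ∈ P, κ p = S := by
    rw [hP, Finset.sum_union hdisj, Finset.sum_eq_zero hκ1, zero_add, hS]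
  have hlamS : lam = ∑ p ∈ P, τ p + S := by rw [hlam, Finset.sum_add_distrib, hκP]
  have hCS : (∑ p ∈ P2, √(κ p)) ≤ √(c * S) := by
    apply Real.le_sqrt_of_sq_le
    refine (sq_sum_le_card_mul_sum_sq (s := P2) (f := fun p => √(κ p))).trans ?_
    rw [hc, hS]
    refine mul_le_mul_of_nonneg_left ?_ (Nat.cast_nonneg _)
    refine Finset.sum_le_sum fun p hp => ?_
    rw [Real.sq_sqrt (hκ0 p hp)]
  have hL1' : ∑ p ∈ P1, L p ≤ M / 3 + 1 := by
    calc ∑ p ∈ P1, L p ≤ ∑ p ∈ P1, (M / 3 + 1) := Finset.sum_le_sum hL1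
      _ = P1.card * (M / 3 + 1) := by rw [Finset.sum_const, nsmul_eq_mul]
      _ ≤ 1 * (M / 3 + 1) := by
          refine mul_le_mul_of_nonneg_right ?_ (by linarith)
          exact_mod_cast hcard
      _ = M / 3 + 1 := one_mul _
  have hL2' : ∑ p ∈ P2, L p ≤ √(8 * M) * √(c * S) + S := by
    calc ∑ p ∈ P2, L p ≤ ∑ p ∈ P2, (√(8 * M) * √(κ p) + κ p) := by
          refine Finset.sum_le_sum fun p hp => ?_
          have h1 := hlogp p hp
          have h2 := hlat p hp
          linarith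
      _ = √(8 * M) * (∑ p ∈ P2, √(κ p)) + S := by
          rw [Finset.sum_add_distrib, ← Finset.mul_sum, hS]
      _ ≤ √(8 * M) * √(c * S) + S :=
          add_le_add (mul_le_mul_of_nonneg_left hCS (Real.sqrt_nonneg _)) le_rfl
  have hmain : M ≤ M / 3 + 1 + √(8 * M) * √(c * S) + lam := by
    calc M ≤ ∑ p ∈ P, (τ p + L p) := hF1
      _ = ∑ p ∈ P, τ p + (∑ p ∈ P1, L p + ∑ p ∈ P2, L p) := by
          rw [Finset.sum_add_distrib]
          congr 1
          rw [hP, Finset.sum_union hdisj]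
      _ ≤ M / 3 + 1 + √(8 * M) * √(c * S) + lam := by
          rw [hlamS]; linarith
  rw [← hlam, ← hc]
  have hlam0 : 0 ≤ lam := by rw [hlamS]; positivity
  have hSlam : S ≤ lam := by rw [hlamS]; linarith
  have hMpos : 0 < M := by linarith
  by_cases h0 : P2.card = 0
  · left
    refine ⟨h0, ?_⟩
    have : c = 0 := by rw [hc, h0]; simp
    rw [this, zero_mul, Real.sqrt_zero, mul_zero] at hmain
    linarith
  · right
    have hcard2 : 1 ≤ c := by
      rw [hc]
      exact_mod_cast Nat.one_le_iff_ne_zero.2 h0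
    by_contra hcon
    push Not at hcon
    have h1 : √(8 * M) * √(c * S) ≤ M * √(1 / 3) := by
      rw [← Real.sqrt_mul (by positivity)]
      have : M * √(1 / 3) = √(M ^ 2 * (1 / 3)) := by
        rw [Real.sqrt_mul (by positivity), Real.sqrt_sq hMpos.le]
      rw [this]
      apply Real.sqrt_le_sqrt
      have h2 : c * S ≤ M / 24 := by
        calc c * S ≤ c * lam := mul_le_mul_of_nonneg_left hSlam (by linarith)
          _ ≤ M / 24 := hcon.le
      calc 8 * M * (c * S) ≤ 8 * M * (M / 24) := mul_le_mul_of_nonneg_left h2 (by positivity)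
        _ = M ^ 2 * (1 / 3) := by ring
    have h2 : lam ≤ M / 24 := by
      calc lam = 1 * lam := (one_mul _).symm
        _ ≤ c * lam := mul_le_mul_of_nonneg_right hcard2 hlam0
        _ ≤ M / 24 := hcon.le
    have h3 : √(1 / 3 : ℝ) < 5775 / 10000 := by
      rw [Real.sqrt_lt' (by norm_num)]; norm_num
    nlinarith

theorem gap_M (M F : ℕ) (hM : 24 ≤ M) (hFdef : F = 2 ^ M + 1) (hF : ¬ F.Prime) :
    (M : ℝ) / (24 * F.primeFactors.card) ≤
      Real.logb 2 ((F.totient / 2 ^ F.totient.factorization 2 : ℕ) : ℝ) ∧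
    √M / 4 ≤ Real.logb 2 ((F.totient / 2 ^ F.totient.factorization 2 : ℕ) : ℝ) := by
  have hM0 : 0 < M := by omega
  have hO : F.totient / 2 ^ F.totient.factorization 2 = ∏ p ∈ F.primeFactors,
        (p ^ (F.factorization p - 1) * od p) := by
    rw [hFdef]; exact oddpart_totientM M hM0
  have hF0 : F ≠ 0 := by rw [hFdef]; positivity
  have hFbig : 2 ≤ F := by
    rw [hFdef]; exact Nat.succ_le_succ (Nat.one_le_two_pow)
  obtain ⟨P, hP⟩ : ∃ P, P = F.primeFactors := ⟨_, rfl⟩
  have hpf : ∀ p ∈ P, p.Prime ∧ p ∣ F ∧ Odd (od p) ∧ p = od p * 2 ^ ex p + 1 := by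
    intro p hp
    rw [hP] at hp
    have hp' := Nat.mem_primeFactors.1 hp
    have h := prime_factorM M p hM0 hp'.1 (hFdef ▸ hp'.2.1)
    exact ⟨hp'.1, hp'.2.1, h.2⟩
  have hodpos : ∀ p ∈ P, 1 ≤ od p := fun p hp => (hpf p hp).2.2.1.pos
  obtain ⟨P1, hP1⟩ : ∃ P1, P1 = P.filter (fun p => od p = 1) := ⟨_, rfl⟩
  obtain ⟨P2, hP2⟩ : ∃ P2, P2 = P.filter (fun p => ¬ od p = 1) := ⟨_, rfl⟩
  have hunion : P = P1 ∪ P2 := by
    rw [hP1, hP2, Finset.filter_union_filter_not_eq]
  have hdisj : Disjoint P1 P2 := by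
    rw [hP1, hP2]; exact Finset.disjoint_filter_filter_not _ _ _
  have hP2sub : P2 ⊆ P := by rw [hP2]; exact Finset.filter_subset _ _
  have hP2od : ∀ p ∈ P2, 1 < od p := by
    intro p hp
    rw [hP2, Finset.mem_filter] at hp
    have := hodpos p hp.1
    omega
  have hone : ∀ p ∈ P1, ex p = 2 ^ M.factorization 2 ∧ 3 * ex p ≤ M := by
    intro p hp
    rw [hP1, Finset.mem_filter] at hp
    exact one_case M p hM0 (hpf p hp.1).1 (hFdef ▸ (hpf p hp.1).2.1) (hFdef ▸ hF) hp.2
  have hP1card : P1.card ≤ 1 := by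
    rw [Finset.card_le_one]
    intro a ha b hb
    have ha1 := (hone a ha).1
    have hb1 := (hone b hb).1
    rw [hP1, Finset.mem_filter] at ha hb
    rw [(hpf a ha.1).2.2.2, (hpf b hb.1).2.2.2, ha.2, hb.2, ha1, hb1]
  rw [← hP] at hO ⊢
  rw [hO]
  have hκ1 : ∀ p ∈ P2, 1 ≤ Real.logb 2 (od p) := by
    intro p hp
    have h4 := hP2od p hp
    rw [Real.le_logb_iff_rpow_le (by norm_num) (by
      have : 0 < od p := by omega
      exact_mod_cast this), Real.rpow_one]
    exact_mod_cast h4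
  have hlam' : Real.logb 2 ((∏ p ∈ P, (p ^ (F.factorization p - 1) * od p) : ℕ) : ℝ)
      = ∑ p ∈ P, ((F.factorization p - 1 : ℕ) * Real.logb 2 p + Real.logb 2 (od p)) := by
    push_cast
    rw [Real.logb_prod]
    · refine Finset.sum_congr rfl fun p hp => ?_
      have h1 := (hpf p hp).1
      have hpR : (0 : ℝ) < p := by exact_mod_cast h1.pos
      have hoR : (0 : ℝ) < od p := by exact_mod_cast (hodpos p hp)
      rw [Real.logb_mul (by positivity) (by positivity), Real.logb_pow]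
    · intro p hp
      have h1 := (hpf p hp).1
      have hpR : (0 : ℝ) < p := by exact_mod_cast h1.pos
      have hoR : (0 : ℝ) < od p := by exact_mod_cast (hodpos p hp)
      positivity
  have hτ0 : ∀ p ∈ P, 0 ≤ ((F.factorization p - 1 : ℕ) : ℝ) * Real.logb 2 p := by
    intro p hp
    have := (hpf p hp).1.one_lt
    exact mul_nonneg (Nat.cast_nonneg _) (logb_pos_of_one_lt this).le
  have hMR : (24 : ℝ) ≤ M := by exact_mod_cast hM
  have hcore := coreM (M : ℝ) hMR P P1 P2 hunion hdisj (fun p => Real.logb 2 (od p))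
      (fun p => (F.factorization p - 1 : ℕ) * Real.logb 2 p) (fun p => Real.logb 2 p)
      (fun p => (ex p : ℝ)) hP1card ?_ ?_ hτ0 ?_ ?_ ?_ ?_
  · -- the conclusion
    rw [hlam']
    obtain ⟨lam, hlam⟩ : ∃ lam, lam = ∑ p ∈ P, (((F.factorization p - 1 : ℕ) : ℝ) *
      Real.logb 2 p + Real.logb 2 (od p)) := ⟨_, rfl⟩
    have hPcard : 1 ≤ P.card := by
      have : P.Nonempty := by
        rw [hP, Nat.nonempty_primeFactors]
        omega
      exact Finset.card_pos.2 this
    have hPcardR : (1 : ℝ) ≤ P.card := by exact_mod_cast hPcard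
    have hP2le : (P2.card : ℝ) ≤ P.card := by exact_mod_cast Finset.card_le_card hP2sub
    -- lower bound `lam ≥ 3/2 * P2.card`
    have hodlog : ∀ p ∈ P, 0 ≤ Real.logb 2 (od p) := by
      intro p hp
      exact Real.logb_nonneg (by norm_num) (by exact_mod_cast hodpos p hp)
    have hlam0 : 0 ≤ lam := by
      rw [hlam]
      exact Finset.sum_nonneg fun p hp => add_nonneg (hτ0 p hp) (hodlog p hp)
    have h3log : ∀ p ∈ P2, (3 : ℝ) / 2 ≤ Real.logb 2 (od p) := by
      intro p hp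
      have h4 := hP2od p hp
      have h5 : 3 ≤ od p := by
        obtain ⟨i, hi⟩ := (hpf p (hP2sub hp)).2.2.1
        omega
      have h6 : Real.logb 2 3 ≤ Real.logb 2 (od p) :=
        Real.logb_le_logb_of_le (by norm_num) (by norm_num) (by exact_mod_cast h5)
      have h7 : (3 : ℝ) / 2 ≤ Real.logb 2 3 := by
        rw [Real.le_logb_iff_rpow_le (by norm_num) (by norm_num)]
        have h8 : ((2 : ℝ) ^ ((3 : ℝ) / 2)) ^ 2 = 8 := by
          rw [← Real.rpow_natCast, ← Real.rpow_mul (by norm_num)]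
          norm_num
        have h9 : 0 ≤ (2 : ℝ) ^ ((3 : ℝ) / 2) := by positivity
        nlinarith
      exact h7.trans h6
    have hlam32 : (3 : ℝ) / 2 * P2.card ≤ lam := by
      calc (3 : ℝ) / 2 * P2.card = ∑ p ∈ P2, (3 : ℝ) / 2 := by
            rw [Finset.sum_const, nsmul_eq_mul]; ring
        _ ≤ ∑ p ∈ P2, (((F.factorization p - 1 : ℕ) : ℝ) *
              Real.logb 2 p + Real.logb 2 (od p)) := by
            refine Finset.sum_le_sum fun p hp => ?_
            have h1 := hτ0 p (hP2sub hp)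
            have h2 := h3log p hp
            linarith
        _ ≤ lam := by
            rw [hlam]
            exact Finset.sum_le_sum_of_subset_of_nonneg hP2sub
              fun p hp _ => add_nonneg (hτ0 p hp) (hodlog p hp)
    rw [← hlam]
    have hMpos : (0 : ℝ) < M := by linarith
    have hsqrt : √(M : ℝ) * √(M : ℝ) = M := Real.mul_self_sqrt hMpos.le
    have hsqrt0 : 0 < √(M : ℝ) := Real.sqrt_pos.2 hMpos
    rcases hcore with ⟨h0, h1⟩ | h1
    · rw [← hlam] at h1
      constructor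
      · rw [div_le_iff₀ (by linarith)]
        nlinarith
      · nlinarith
    · rw [← hlam] at h1
      constructor
      · rw [div_le_iff₀ (by linarith)]
        nlinarith [mul_le_mul_of_nonneg_right hP2le hlam0]
      · -- lam^2 ≥ 3/2 * card * lam ≥ M/16
        have h2 : (M : ℝ) / 16 ≤ lam * lam := by
          have := mul_le_mul_of_nonneg_right hlam32 hlam0
          nlinarith
        by_contra hcon
        push Not at hcon
        nlinarith
  · intro p hp
    rw [hP1, Finset.mem_filter] at hp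
    show Real.logb 2 (od p) = 0
    rw [hp.2]; simp
  · intro p hp
    exact zero_le_one.trans (hκ1 p hp)
  · have hexp : ∀ p ∈ P, ((F.factorization p - 1 : ℕ) : ℝ) * Real.logb 2 p + Real.logb 2 p
        = (F.factorization p : ℝ) * Real.logb 2 p := by
      intro p hp
      have h1 : 1 ≤ F.factorization p :=
        ((hpf p hp).1.dvd_iff_one_le_factorization hF0).1 (hpf p hp).2.1
      rw [Nat.cast_sub h1]; push_cast; ring
    rw [Finset.sum_congr rfl hexp]
    have e1 : Real.logb 2 (F : ℝ) = ∑ p ∈ P, (F.factorization p : ℝ) * Real.logb 2 p := by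
      conv_lhs => rw [← Nat.prod_factorization_pow_eq_self hF0]
      rw [Finsupp.prod, Nat.support_factorization, ← hP]
      push_cast
      rw [Real.logb_prod]
      · refine Finset.sum_congr rfl fun p hp => ?_
        rw [Real.logb_pow]
      · intro p hp
        have := (hpf p hp).1.pos
        positivity
    rw [← e1]
    have hFpos : (0 : ℝ) < F := by exact_mod_cast (by omega : 0 < F)
    rw [Real.le_logb_iff_rpow_le (by norm_num) hFpos, Real.rpow_natCast]
    have e2 : (2 : ℝ) ^ M = ((2 ^ M : ℕ) : ℝ) := by push_cast; rfl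
    rw [e2, Nat.cast_le, hFdef]
    exact Nat.le_succ _
  · intro p hp
    have h1 := hone p hp
    rw [hP1, Finset.mem_filter] at hp
    obtain ⟨h2, h3, h4, h5⟩ := hpf p hp.1
    have hle : (p : ℝ) ≤ 2 * 2 ^ ex p := by
      have : p ≤ 2 * 2 ^ ex p := by
        rw [hp.2, one_mul] at h5
        have : 0 < 2 ^ ex p := by positivity
        omega
      exact_mod_cast this
    have hpR : (0 : ℝ) < p := by exact_mod_cast h2.pos
    have h6 := Real.logb_le_logb_of_le (b := 2) (by norm_num) hpR hle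
    rw [Real.logb_mul (by norm_num) (by positivity),
      Real.logb_pow, Real.logb_self_eq_one (by norm_num)] at h6
    have h7 : (3 : ℝ) * ex p ≤ M := by exact_mod_cast h1.2
    show Real.logb 2 p ≤ M / 3 + 1
    linarith
  · intro p hp
    have h4 := hP2od p hp
    obtain ⟨h1, h2, h3, h5⟩ := hpf p (hP2sub hp)
    have hoR : (0 : ℝ) < od p := by exact_mod_cast (by omega : 0 < od p)
    have hle : (p : ℝ) ≤ 2 * (od p * 2 ^ ex p) := by
      have : p ≤ 2 * (od p * 2 ^ ex p) := by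
        have : 0 < od p * 2 ^ ex p := by positivity
        omega
      exact_mod_cast this
    have hpR : (0 : ℝ) < p := by exact_mod_cast h1.pos
    have h6 := Real.logb_le_logb_of_le (b := 2) (by norm_num) hpR hle
    rw [Real.logb_mul (by norm_num) (by positivity), Real.logb_mul (by positivity) (by positivity),
      Real.logb_pow, Real.logb_self_eq_one (by norm_num)] at h6
    have h7 := hκ1 p hp
    show Real.logb 2 p ≤ ex p + 2 * Real.logb 2 (od p)
    linarith
  · intro p hp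
    have h4 := hP2od p hp
    obtain ⟨h1, h2, h3, h5⟩ := hpf p (hP2sub hp)
    have h6 := lattice_real M (ex p) (od p) hM0 h3 h4 (by rw [← h5, ← hFdef]; exact h2)
    show (ex p : ℝ) + Real.logb 2 (od p) ≤ √(8 * M) * √(Real.logb 2 (od p))
    rw [← Real.sqrt_mul (by positivity)]
    exact Real.le_sqrt_of_sq_le h6.le

end Pool.Agent.helper2.FermatM
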