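import Mathlib

/-!
Divisors `k * 2 ^ n + 1` of `2 ^ M + 1` for general `M`: the multiplicative lattice of `2` and `k`.
-/

namespace Pool.Agent.helper2.FermatM

/-- Pigeonhole in the cyclic group generated by `2` modulo a divisor `D` of the Fermat number
`2 ^ M + 1`, for an odd number `k > 1` congruent to a power of `2` modulo `D`. -/
theorem lattice_gen (M D k J U V : ℕ) (hM : 0 < M) (hk : Odd k) (hk1 : 1 < k)
    (hdvd : D ∣ 2 ^ M + 1) (hkJ : (k : ZMod D) = 2 ^ J) (hU : 0 < U) (hV : 0 < V)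
    (hUV : 2 * M < U * V) :
    D < 2 ^ (U - 1) * k ^ (V - 1) := by
  have hDpos : 0 < D := Nat.pos_of_dvd_of_pos hdvd (by positivity)
  -- work in `ZMod D`
  have h2pow : (2 : ZMod D) ^ M = -1 := by
    have h : ((2 ^ M + 1 : ℕ) : ZMod D) = 0 := (ZMod.natCast_eq_zero_iff _ _).2 hdvd
    push_cast at h
    exact eq_neg_of_add_eq_zero_left h
  have h2ord : (2 : ZMod D) ^ (2 * M) = 1 := by
    rw [mul_comm, pow_mul, h2pow]; norm_num
  -- pigeonhole
  have hmod : ∀ u v : ℕ, (2 : ZMod D) ^ u * (k : ZMod D) ^ v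
      = 2 ^ ((u + J * v) % (2 * M)) := by
    intro u v
    rw [hkJ, ← pow_mul, ← pow_add]
    conv_lhs => rw [← Nat.mod_add_div (u + J * v) ((2 * M))]
    rw [pow_add, pow_mul _ ((2 * M)), h2ord, one_pow, mul_one]
  obtain ⟨p, hp, q, hq, hpq, hf⟩ : ∃ p ∈ Finset.range U ×ˢ Finset.range V,
      ∃ q ∈ Finset.range U ×ˢ Finset.range V, p ≠ q ∧
        (p.1 + J * p.2) % (2 * M) = (q.1 + J * q.2) % (2 * M) := by
    refine Finset.exists_ne_map_eq_of_card_lt_of_maps_to (t := Finset.range ((2 * M))) ?_ ?_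
    · simpa using hUV
    · intro p _
      simp only [Finset.coe_range, Set.mem_Iio]
      exact Nat.mod_lt _ (by omega)
  simp only [Finset.mem_product, Finset.mem_range] at hp hq
  -- coprimality
  have hcop2 : Nat.Coprime D 2 := by
    have : Odd (2 ^ M + 1) := by
      apply Even.add_one
      exact (Nat.even_pow.2 ⟨even_two, by omega⟩)
    exact Nat.Coprime.coprime_dvd_left hdvd (Nat.coprime_two_right.2 this)
  have hcopk : Nat.Coprime D k := by
    have h2u : IsUnit (2 : ZMod D) := by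
      apply IsUnit.of_pow_eq_one h2ord (by omega)
    have hku : IsUnit (k : ZMod D) := by rw [hkJ]; exact h2u.pow J
    exact ((ZMod.isUnit_iff_coprime k D).1 hku).symm
  -- key congruence
  have key : ∀ u v u' v' : ℕ, u < U → v < V → u' < U → v' < V → (u, v) ≠ (u', v') → u ≤ u' →
      (u + J * v) % (2 * M) = (u' + J * v') % (2 * M) →
      D < 2 ^ (U - 1) * k ^ (V - 1) := by
    intro u v u' v' hu hv hu' hv' hne huu h
    have hz : (2 : ZMod D) ^ u * (k : ZMod D) ^ v = 2 ^ u' * (k : ZMod D) ^ v' := by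
      rw [hmod, hmod, h]
    have hz' : ((2 ^ u * k ^ v : ℕ) : ZMod D) = ((2 ^ u' * k ^ v' : ℕ) : ZMod D) := by
      push_cast; exact hz
    have hme : 2 ^ u * k ^ v ≡ 2 ^ u' * k ^ v' [MOD D] := (ZMod.natCast_eq_natCast_iff _ _ _).1 hz'
    have hmax : ∀ a b : ℕ, a < U → b < V → 2 ^ a * k ^ b ≤ 2 ^ (U - 1) * k ^ (V - 1) := by
      intro a b ha hb
      exact Nat.mul_le_mul (Nat.pow_le_pow_right (by norm_num) (by omega))
        (Nat.pow_le_pow_right (by omega) (by omega))
    rcases le_total v v' with hvv | hvv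
    · -- `2 ^ (u' - u) * k ^ (v' - v) ≡ 1`
      have h1 : 2 ^ u * k ^ v * 1 ≡ 2 ^ u * k ^ v * (2 ^ (u' - u) * k ^ (v' - v)) [MOD D] := by
        have : 2 ^ u * k ^ v * (2 ^ (u' - u) * k ^ (v' - v)) = 2 ^ u' * k ^ v' := by
          have e1 : 2 ^ u * 2 ^ (u' - u) = 2 ^ u' := by rw [← pow_add, Nat.add_sub_cancel' huu]
          have e2 : k ^ v * k ^ (v' - v) = k ^ v' := by rw [← pow_add, Nat.add_sub_cancel' hvv]
          rw [← e1, ← e2]; ring
        rw [this, mul_one]; exact hme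
      have h2 : 1 ≡ 2 ^ (u' - u) * k ^ (v' - v) [MOD D] :=
        Nat.ModEq.cancel_left_of_coprime
          ((Nat.Coprime.mul_right (hcop2.pow_right u) (hcopk.pow_right v))) h1
      have hgt : 1 < 2 ^ (u' - u) * k ^ (v' - v) := by
        by_cases hu0 : u = u'
        · have hv0 : v ≠ v' := by
            intro hv0; exact hne (by rw [hu0, hv0])
          have : 1 < k ^ (v' - v) := Nat.one_lt_pow (by omega) hk1
          subst hu0
          simpa using this
        · have h3 : 1 < 2 ^ (u' - u) := Nat.one_lt_pow (by omega) (by norm_num)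
          have h4 : 1 ≤ k ^ (v' - v) := Nat.one_le_pow _ _ (by omega)
          calc 1 < 2 ^ (u' - u) := h3
            _ ≤ 2 ^ (u' - u) * k ^ (v' - v) := Nat.le_mul_of_pos_right _ h4
      have h5 : D ∣ 2 ^ (u' - u) * k ^ (v' - v) - 1 := (Nat.modEq_iff_dvd' hgt.le).1 h2
      have h6 := Nat.le_of_dvd (by omega) h5
      have h7 := hmax (u' - u) (v' - v) (by omega) (by omega)
      omega
    · -- `k ^ (v - v') ≡ 2 ^ (u' - u)`
      have h1 : 2 ^ u * k ^ v' * (k ^ (v - v')) ≡ 2 ^ u * k ^ v' * (2 ^ (u' - u)) [MOD D] := by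
        have e1 : 2 ^ u * k ^ v' * (2 ^ (u' - u)) = 2 ^ u' * k ^ v' := by
          have e1 : 2 ^ u * 2 ^ (u' - u) = 2 ^ u' := by rw [← pow_add, Nat.add_sub_cancel' huu]
          rw [← e1]; ring
        have e2 : 2 ^ u * k ^ v' * (k ^ (v - v')) = 2 ^ u * k ^ v := by
          have e2 : k ^ v' * k ^ (v - v') = k ^ v := by rw [← pow_add, Nat.add_sub_cancel' hvv]
          rw [← e2]; ring
        rw [e1, e2]; exact hme
      have h2 : k ^ (v - v') ≡ 2 ^ (u' - u) [MOD D] :=
        Nat.ModEq.cancel_left_of_coprime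
          ((Nat.Coprime.mul_right (hcop2.pow_right u) (hcopk.pow_right v'))) h1
      have hne' : k ^ (v - v') ≠ 2 ^ (u' - u) := by
        intro heq
        have hodd : Odd (k ^ (v - v')) := hk.pow
        rw [heq] at hodd
        have hu0 : u' - u = 0 := by
          by_contra h0
          exact (Nat.not_even_iff_odd.2 hodd) (Nat.even_pow.2 ⟨even_two, h0⟩)
        rw [hu0, pow_zero] at heq
        have hv0 : v - v' = 0 := by
          by_contra h0
          have := Nat.one_lt_pow h0 hk1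
          omega
        apply hne
        have : u = u' := by omega
        have : v = v' := by omega
        simp [*]
      have ha := hmax (u' - u) 0 (by omega) hV
      have hb := hmax 0 (v - v') hU (by omega)
      simp only [pow_zero, mul_one, one_mul] at ha hb
      rcases lt_or_gt_of_ne hne' with hlt | hgt
      · have h5 : D ∣ 2 ^ (u' - u) - k ^ (v - v') := (Nat.modEq_iff_dvd' hlt.le).1 h2
        have h6 := Nat.le_of_dvd (by omega) h5
        have : 1 ≤ k ^ (v - v') := Nat.one_le_pow _ _ (by omega)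
        omega
      · have h5 : D ∣ k ^ (v - v') - 2 ^ (u' - u) := (Nat.modEq_iff_dvd' hgt.le).1 h2.symm
        have h6 := Nat.le_of_dvd (by omega) h5
        have : 1 ≤ 2 ^ (u' - u) := Nat.one_le_pow _ _ (by omega)
        omega
  rcases le_total p.1 q.1 with h | h
  · exact key p.1 p.2 q.1 q.2 hp.1 hp.2 hq.1 hq.2 (by simpa using hpq) h hf
  · exact key q.1 q.2 p.1 p.2 hq.1 hq.2 hp.1 hp.2 (by simpa using hpq.symm) h hf.symm

/-- The case `D = k * 2 ^ n + 1`: `k` is congruent to a power of `2` modulo `D`. -/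
theorem proth_pow (M n k : ℕ) (hM : 0 < M) (hdvd : k * 2 ^ n + 1 ∣ 2 ^ M + 1) :
    (k : ZMod (k * 2 ^ n + 1)) = 2 ^ (M + ((2 * M) * n - n)) := by
  obtain ⟨D, hD⟩ : ∃ D, D = k * 2 ^ n + 1 := ⟨_, rfl⟩
  rw [← hD] at hdvd ⊢
  have h2pow : (2 : ZMod D) ^ M = -1 := by
    have h : ((2 ^ M + 1 : ℕ) : ZMod D) = 0 := (ZMod.natCast_eq_zero_iff _ _).2 hdvd
    push_cast at h
    exact eq_neg_of_add_eq_zero_left h
  have hkn : (k : ZMod D) * 2 ^ n = -1 := by
    have h : ((k * 2 ^ n + 1 : ℕ) : ZMod D) = 0 :=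
      (ZMod.natCast_eq_zero_iff _ _).2 (by rw [← hD])
    push_cast at h
    exact eq_neg_of_add_eq_zero_left h
  have h2ord : (2 : ZMod D) ^ (2 * M) = 1 := by
    rw [mul_comm, pow_mul, h2pow]; norm_num
  have hle : n ≤ (2 * M) * n := Nat.le_mul_of_pos_left n (by omega)
  have h1 : (2 : ZMod D) ^ n * 2 ^ ((2 * M) * n - n) = 1 := by
    rw [← pow_add, Nat.add_sub_cancel' hle, pow_mul, h2ord, one_pow]
  calc (k : ZMod D) = (k * 2 ^ n) * 2 ^ ((2 * M) * n - n) := by
        rw [mul_assoc, h1, mul_one]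
    _ = 2 ^ (M + ((2 * M) * n - n)) := by
        rw [hkn, pow_add (2 : ZMod D) M, h2pow]

end Pool.Agent.helper2.FermatM
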