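import Mathlib

/-!
# A sharp inequality for divisors `k 2 ^ n + 1` of Fermat numbers

If `D = k 2 ^ n + 1` divides `2 ^ (2 ^ m) + 1`, `k > 1` odd, `n ≥ 4`, then
`log (D / k) * log D ≤ log (2 ^ (2 ^ m)) * log k`.
-/

set_option autoImplicit false

namespace Pool.Agent.helper2.Fermat

/-- the relation `D ∣ k ^ q + 2 ^ r` or `D ∣ k ^ q - 2 ^ r` for `2 ^ m = q n + r` -/
theorem sharp_rel (N k n q r D : ℕ) (hD : D = k * 2 ^ n + 1) (hdvd : D ∣ 2 ^ N + 1)
    (hN : N = q * n + r) : (D : ℤ) ∣ (k : ℤ) ^ q + (-1) ^ q * 2 ^ r := by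
  have h1 : ((k : ZMod D)) * 2 ^ n = -1 := by
    have h : ((k * 2 ^ n + 1 : ℕ) : ZMod D) = 0 :=
      (ZMod.natCast_eq_zero_iff _ _).2 (by rw [← hD])
    push_cast at h
    exact eq_neg_of_add_eq_zero_left h
  have h2 : (2 : ZMod D) ^ N = -1 := by
    have h : ((2 ^ N + 1 : ℕ) : ZMod D) = 0 := (ZMod.natCast_eq_zero_iff _ _).2 hdvd
    push_cast at h
    exact eq_neg_of_add_eq_zero_left h
  have h3 : (k : ZMod D) ^ q * 2 ^ (q * n) = (-1) ^ q := by
    rw [mul_comm q n, pow_mul, ← mul_pow, h1]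
  have h4 : (k : ZMod D) ^ q * 2 ^ N = (-1) ^ q * 2 ^ r := by
    rw [hN, pow_add, ← mul_assoc, h3]
  rw [h2] at h4
  have h5 : (((k : ℤ) ^ q + (-1) ^ q * 2 ^ r : ℤ) : ZMod D) = 0 := by
    push_cast
    rw [← h4]
    ring
  exact (ZMod.intCast_zmod_eq_zero_iff_dvd _ _).1 h5

/-- sizes: `D ≤ k ^ q + 2 ^ r` -/
theorem sharp_size (N k n q r D : ℕ) (hD : D = k * 2 ^ n + 1) (hdvd : D ∣ 2 ^ N + 1)
    (hN : N = q * n + r) (hk : Odd k) (hk1 : 1 < k) (hq : 1 ≤ q) : D ≤ k ^ q + 2 ^ r := by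
  have h1 := sharp_rel N k n q r D hD hdvd hN
  have hne : (k : ℤ) ^ q + (-1) ^ q * 2 ^ r ≠ 0 := by
    intro h0
    have h2 : (k : ℤ) ^ q = 2 ^ r ∨ (k : ℤ) ^ q = -2 ^ r := by
      rcases neg_one_pow_eq_or ℤ q with h | h
      · right; rw [h] at h0; linarith
      · left; rw [h] at h0; linarith
    have h3 : (0 : ℤ) < (k : ℤ) ^ q := by
      have : (0 : ℤ) < k := by exact_mod_cast (by omega : 0 < k)
      positivity
    rcases h2 with h2 | h2
    · have h4 : k ^ q = 2 ^ r := by exact_mod_cast h2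
      have h5 : Odd (k ^ q) := hk.pow
      rcases Nat.eq_zero_or_pos r with hr | hr
      · rw [hr, pow_zero] at h4
        have : 1 < k ^ q := Nat.one_lt_pow (by omega) hk1
        omega
      · rw [h4] at h5
        have : Even (2 ^ r) := (Nat.even_pow.2 ⟨even_two, hr.ne'⟩)
        exact (Nat.not_even_iff_odd.2 h5) this
    · have : (0 : ℤ) < 2 ^ r := by positivity
      linarith
  have h6 : (D : ℤ) ≤ |(k : ℤ) ^ q + (-1) ^ q * 2 ^ r| := by
    have h7 := (Int.natAbs_dvd_natAbs.2 h1)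
    rw [Int.natAbs_natCast] at h7
    have h8 := Nat.le_of_dvd (Int.natAbs_pos.2 hne) h7
    rw [Int.abs_eq_natAbs]
    exact_mod_cast h8
  have h9 : |(k : ℤ) ^ q + (-1) ^ q * 2 ^ r| ≤ (k : ℤ) ^ q + 2 ^ r := by
    refine (abs_add_le _ _).trans ?_
    have e1 : |(k : ℤ) ^ q| = (k : ℤ) ^ q := abs_of_nonneg (by positivity)
    have e2 : |(-1 : ℤ) ^ q * 2 ^ r| = 2 ^ r := by
      rw [abs_mul, abs_neg_one_pow, one_mul]
      exact abs_of_nonneg (by positivity)
    rw [e1, e2]
  have := h6.trans h9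
  exact_mod_cast this

/-- the case `r = 0`: `D + k ≤ k ^ q + 1` -/
theorem sharp_size0 (N k n q D : ℕ) (hD : D = k * 2 ^ n + 1) (hdvd : D ∣ 2 ^ N + 1)
    (hN : N = q * n) (hk : Odd k) (hk1 : 1 < k) (hq : 2 ≤ q) (hn : 1 ≤ n) :
    D + k ≤ k ^ q + 1 := by
  have h1 := sharp_size N k n q 0 D hD hdvd (by rw [hN]; rfl) hk hk1 (by omega)
  rw [pow_zero, hD] at h1
  have h2 : k * 2 ^ n ≤ k ^ q := by omega
  obtain ⟨j, rfl⟩ : ∃ j, q = j + 1 := ⟨q - 1, by omega⟩
  rw [pow_succ, mul_comm] at h2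
  have h3 : 2 ^ n ≤ k ^ j := Nat.le_of_mul_le_mul_right h2 (by omega)
  have h4 : 2 ^ n ≠ k ^ j := by
    intro h
    have h5 : Odd (k ^ j) := hk.pow
    rw [← h] at h5
    exact (Nat.not_even_iff_odd.2 h5) (Nat.even_pow.2 ⟨even_two, by omega⟩)
  have h5 : 2 ^ n + 1 ≤ k ^ j := by omega
  have h6 : k * (2 ^ n + 1) ≤ k ^ (j + 1) := by
    rw [pow_succ, mul_comm]
    exact Nat.mul_le_mul_right _ h5
  rw [hD]
  have : k * (2 ^ n + 1) = k * 2 ^ n + k := by ring
  omega

/-- the inequality -/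
theorem sharp (m k n D : ℕ) (hD : D = k * 2 ^ n + 1) (hdvd : D ∣ 2 ^ (2 ^ m) + 1)
    (hk : Odd k) (hk1 : 1 < k) (hn : 4 ≤ n) :
    (Real.log D - Real.log k) * Real.log D ≤ 2 ^ m * Real.log 2 * Real.log k := by
  set N : ℕ := 2 ^ m with hNdef
  have hk3 : 3 ≤ k := by
    obtain ⟨j, hj⟩ := hk
    omega
  have hkr : (3 : ℝ) ≤ k := by exact_mod_cast hk3
  have hk0 : (0 : ℝ) < k := by linarith
  have hDr : (D : ℝ) = k * 2 ^ n + 1 := by rw [hD]; push_cast; ring
  have h2n : (16 : ℝ) ≤ 2 ^ n := by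
    calc (16 : ℝ) = 2 ^ 4 := by norm_num
      _ ≤ 2 ^ n := pow_le_pow_right₀ (by norm_num) hn
  have hD49 : (49 : ℝ) ≤ D := by
    rw [hDr]
    nlinarith
  have hD0 : (0 : ℝ) < D := by linarith
  -- n < N
  have hnN : n < N := by
    by_contra hcon
    push Not at hcon
    have h1 : 2 ^ N ≤ 2 ^ n := Nat.pow_le_pow_right (by norm_num) hcon
    have h2 := Nat.le_of_dvd (by positivity) hdvd
    rw [hD] at h2
    have h3 : 3 * 2 ^ n ≤ k * 2 ^ n := Nat.mul_le_mul_right _ hk3
    have h4 : 0 < 2 ^ n := by positivity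
    omega
  -- logarithms
  set l2 : ℝ := Real.log 2 with hl2
  have hl2a : (0.69 : ℝ) < l2 := by
    have := Real.log_two_gt_d9
    rw [hl2]; linarith
  have hl2b : l2 < 0.7 := by
    have := Real.log_two_lt_d9
    rw [hl2]; linarith
  set lk : ℝ := Real.log k with hlk
  have hlk1 : (1 : ℝ) < lk := by
    have h3 : (1 : ℝ) < Real.log 3 := by
      rw [Real.lt_log_iff_exp_lt (by norm_num)]
      have h1 := Real.exp_one_lt_d9
      linarith
    exact h3.trans_le (Real.log_le_log (by norm_num) hkr)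
  have hlkk : lk ≤ k - 1 := by
    have := Real.log_le_sub_one_of_pos hk0
    exact this
  set lD : ℝ := Real.log D with hlD
  -- `δ = log (1 + 1 / (k 2 ^ n))`
  set x : ℝ := 1 / (k * 2 ^ n) with hx
  have hkn : (0 : ℝ) < k * 2 ^ n := by positivity
  have hx0 : 0 < x := by positivity
  have hlDsum : lD = n * l2 + lk + Real.log (1 + x) := by
    have h1 : (D : ℝ) = 2 ^ n * k * (1 + x) := by
      rw [hDr, hx]
      field_simp
    rw [hlD, h1, Real.log_mul (by positivity) (by positivity),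
      Real.log_mul (by positivity) (by positivity), Real.log_pow]
  set d : ℝ := Real.log (1 + x) with hd
  have hd0 : 0 ≤ d := Real.log_nonneg (by linarith)
  have hdx : d ≤ x := by
    have := Real.log_le_sub_one_of_pos (show 0 < 1 + x by linarith)
    linarith
  have hnr : (4 : ℝ) ≤ n := by exact_mod_cast hn
  have hx48 : x ≤ 1 / 48 := by
    rw [hx]
    apply one_div_le_one_div_of_le (by norm_num)
    nlinarith
  obtain ⟨q, r, hqr, hrn⟩ : ∃ q r, N = q * n + r ∧ r < n :=
    ⟨N / n, N % n, by rw [Nat.div_add_mod'], Nat.mod_lt _ (by omega)⟩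
  have hq1 : 1 ≤ q := by
    by_contra hq0
    have : q = 0 := by omega
    rw [this, zero_mul, zero_add] at hqr
    omega
  have hNr : (2 : ℝ) ^ m = q * n + r := by
    have : ((2 ^ m : ℕ) : ℝ) = ((q * n + r : ℕ) : ℝ) := by rw [← hqr]
    push_cast at this
    exact this
  rw [hNr]
  have hlDk : lD - lk = n * l2 + d := by rw [hlDsum]; ring
  rw [hlDk]
  rcases Nat.eq_zero_or_pos r with hr | hr
  · -- the case `r = 0`
    subst hr
    rw [Nat.add_zero] at hqr
    have hq2 : 2 ≤ q := by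
      by_contra hcon
      have : q = 1 := by omega
      rw [this, one_mul] at hqr
      omega
    have h1 := sharp_size0 N k n q D hD hdvd hqr hk hk1 hq2 (by omega)
    have h2 : (D : ℝ) + (k - 1) ≤ (k : ℝ) ^ q := by
      have : ((D + k : ℕ) : ℝ) ≤ ((k ^ q + 1 : ℕ) : ℝ) := by exact_mod_cast h1
      push_cast at this
      linarith
    have h3 : lD + (k - 1) / (D + (k - 1)) ≤ q * lk := by
      have h4 : Real.log (D + (k - 1)) ≤ q * lk := by
        rw [hlk, ← Real.log_pow]
        exact Real.log_le_log (by linarith) h2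
      have hy' : (0 : ℝ) < 1 + ((k : ℝ) - 1) / D := by
        have : (0 : ℝ) ≤ ((k : ℝ) - 1) / D := div_nonneg (by linarith) hD0.le
        linarith
      have h5 : Real.log ((D : ℝ) + (k - 1)) = lD + Real.log (1 + (k - 1) / D) := by
        rw [hlD, ← Real.log_mul hD0.ne' hy'.ne']
        congr 1
        field_simp
      have h6 : (k - 1) / (D + (k - 1)) ≤ Real.log (1 + ((k : ℝ) - 1) / D) := by
        have hy : (0 : ℝ) < 1 + ((k : ℝ) - 1) / D := by
          have : (0 : ℝ) ≤ ((k : ℝ) - 1) / D := div_nonneg (by linarith) hD0.le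
          linarith
        have h7 := Real.one_sub_inv_le_log_of_pos hy
        refine le_trans (le_of_eq ?_) h7
        have h8 : (D : ℝ) + (k - 1) ≠ 0 := by
          have : (0 : ℝ) < (D : ℝ) + (k - 1) := by linarith
          exact this.ne'
        field_simp
        ring
      linarith
    -- `(n l2 + d) lD ≤ n l2 q lk`
    have h9 : d * lD ≤ n * l2 * ((k - 1) / (D + (k - 1))) := by
      have h10 : lD ≤ n * l2 + (k - 1) + 1 / 48 := by
        rw [hlDsum]; linarith
      have hlD0 : 0 ≤ lD := Real.log_nonneg (by linarith)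
      have h11 : d * lD ≤ x * (n * l2 + (k - 1) + 1 / 48) := by
        calc d * lD ≤ x * lD := by gcongr
          _ ≤ x * (n * l2 + (k - 1) + 1 / 48) := by gcongr
      refine h11.trans ?_
      have hDpos : (0 : ℝ) < D + (k - 1) := by linarith
      rw [hx, one_div_mul_eq_div, mul_div_assoc', div_le_div_iff₀ hkn hDpos]
      have h12 : (D : ℝ) + (k - 1) = k * 2 ^ n + k := by rw [hDr]; ring
      rw [h12]
      have h13 : (k : ℝ) * 2 ^ n + k ≤ (17 / 16) * (k * 2 ^ n) := by nlinarith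
      have h14 : (n * l2 + (k - 1) + 1 / 48) * (17 / 16) ≤ n * l2 * (k - 1) := by
        have h15 : (2.76 : ℝ) ≤ n * l2 := by nlinarith
        nlinarith
      have h16 : 0 ≤ n * l2 + (k - 1) + 1 / 48 := by
        have : 0 ≤ n * l2 := by positivity
        linarith
      calc (n * l2 + (k - 1) + 1 / 48) * (k * 2 ^ n + k)
          ≤ (n * l2 + (k - 1) + 1 / 48) * ((17 / 16) * (k * 2 ^ n)) := by gcongr
        _ = (n * l2 + (k - 1) + 1 / 48) * (17 / 16) * (k * 2 ^ n) := by ring
        _ ≤ n * l2 * (k - 1) * (k * 2 ^ n) := by gcongr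
    have h17 : 0 ≤ n * l2 := by positivity
    have h18 := mul_le_mul_of_nonneg_left h3 h17
    have e5 : ((n : ℝ) * l2 + d) * lD = n * l2 * lD + d * lD := by ring
    have e6 : ((q : ℝ) * n + ((0 : ℕ) : ℝ)) * l2 * lk = n * l2 * (q * lk) := by
      push_cast
      ring
    have e7 : (n : ℝ) * l2 * (lD + (k - 1) / (D + (k - 1))) =
        n * l2 * lD + n * l2 * ((k - 1) / (D + (k - 1))) := by ring
    rw [e5, e6]
    rw [e7] at h18
    linarith
  · -- the case `r ≥ 1`
    have h1 := sharp_size N k n q r D hD hdvd hqr hk hk1 hq1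
    have h1r : (D : ℝ) - 2 ^ r ≤ (k : ℝ) ^ q := by
      have : ((D : ℕ) : ℝ) ≤ ((k ^ q + 2 ^ r : ℕ) : ℝ) := by exact_mod_cast h1
      push_cast at this
      linarith
    have hrr : (1 : ℝ) ≤ r := by exact_mod_cast hr
    -- `y = 2 ^ r / D`
    set y : ℝ := 2 ^ r / D with hy
    have hy0 : 0 < y := by positivity
    obtain ⟨j, hj⟩ : ∃ j, n = r + j := ⟨n - r, by omega⟩
    have hj1 : 1 ≤ j := by omega
    have hjr : (1 : ℝ) ≤ j := by exact_mod_cast hj1
    have h2j : (2 : ℝ) ≤ 2 ^ j := by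
      calc (2 : ℝ) = 2 ^ 1 := by norm_num
        _ ≤ 2 ^ j := pow_le_pow_right₀ (by norm_num) hj1
    have hyj : y ≤ 1 / (3 * 2 ^ j) := by
      rw [hy, div_le_div_iff₀ hD0 (by positivity), one_mul, hDr, hj, pow_add]
      have : (0 : ℝ) < 2 ^ r * 2 ^ j := by positivity
      nlinarith
    have hy6 : y ≤ 1 / 6 := by
      refine hyj.trans ?_
      apply one_div_le_one_div_of_le (by norm_num)
      linarith
    have h2 : lD + Real.log (1 - y) ≤ q * lk := by
      have h4 : Real.log ((D : ℝ) - 2 ^ r) ≤ q * lk := by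
        rw [hlk, ← Real.log_pow]
        apply Real.log_le_log _ h1r
        have : (2 : ℝ) ^ r = y * D := by rw [hy]; field_simp
        rw [this]
        nlinarith
      have h5 : Real.log ((D : ℝ) - 2 ^ r) = lD + Real.log (1 - y) := by
        rw [hlD, ← Real.log_mul hD0.ne' (by linarith)]
        congr 1
        rw [hy]
        field_simp
      linarith
    have h3 : -(6 / 5 * y) ≤ Real.log (1 - y) := by
      have h4 := Real.one_sub_inv_le_log_of_pos (show 0 < 1 - y by linarith)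
      refine le_trans ?_ h4
      have h5 : (1 - y)⁻¹ ≤ 1 + 6 / 5 * y := by
        rw [inv_le_comm₀ (by linarith) (by linarith)]
        rw [inv_le_iff_one_le_mul₀ (by linarith)]
        nlinarith
      linarith
    -- `n y ≤ (r + 1) / 6`
    have h4 : n * y ≤ (r + 1) / 6 := by
      have h5 : (n : ℝ) = r + j := by rw [hj]; push_cast; ring
      have h6 : (j : ℝ) * 2 ≤ 2 ^ j := by
        have : j * 2 ≤ 2 ^ j := by
          clear_value y
          induction j, hj1 using Nat.le_induction with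
          | base => norm_num
          | succ i hi ih =>
            have : 2 ^ (i + 1) = 2 * 2 ^ i := by ring
            have h7 := Nat.lt_two_pow_self (n := i)
            omega
        exact_mod_cast this
      have h8 : n * y ≤ n * (1 / (3 * 2 ^ j)) := by gcongr
      refine h8.trans ?_
      rw [h5, mul_one_div, div_le_div_iff₀ (by positivity) (by norm_num)]
      nlinarith
    -- `d lD ≤ 1 / 5`
    have h5 : d * lD ≤ 1 / 5 := by
      have hlD0 : 0 ≤ lD := Real.log_nonneg (by linarith)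
      have h10 : lD ≤ n * l2 + (k - 1) + 1 / 48 := by
        rw [hlDsum]; linarith
      have h11 : d * lD ≤ x * (n * l2 + (k - 1) + 1 / 48) := by
        calc d * lD ≤ x * lD := by gcongr
          _ ≤ x * (n * l2 + (k - 1) + 1 / 48) := by gcongr
      refine h11.trans ?_
      rw [hx, one_div_mul_eq_div, div_le_iff₀ hkn]
      have h12 : (n : ℝ) * 4 ≤ 2 ^ n := by
        have : n * 4 ≤ 2 ^ n := by
          clear_value y x d
          clear * - hn
          induction n, hn using Nat.le_induction with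
          | base => norm_num
          | succ i hi ih =>
            have : 2 ^ (i + 1) = 2 * 2 ^ i := by ring
            omega
        exact_mod_cast this
      nlinarith
    have h6 : 0 ≤ n * l2 := by positivity
    have h7 := mul_le_mul_of_nonneg_left h2 h6
    have h8 := mul_le_mul_of_nonneg_left h3 h6
    have h9 : n * l2 * (6 / 5 * y) ≤ 6 / 5 * l2 * ((r + 1) / 6) := by nlinarith
    have h10 : 6 / 5 * l2 * ((r + 1) / 6) + 1 / 5 ≤ r * l2 * lk := by
      have e1 : 0 ≤ (r : ℝ) * l2 := by positivity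
      have e2 : (r : ℝ) * l2 * 1 ≤ r * l2 * lk := mul_le_mul_of_nonneg_left hlk1.le e1
      have e3 : 1 * l2 ≤ (r : ℝ) * l2 := mul_le_mul_of_nonneg_right hrr (by linarith)
      have e4 : 6 / 5 * l2 * (((r : ℝ) + 1) / 6) = (r * l2 + l2) / 5 := by ring
      rw [e4]
      linarith
    have e5 : ((n : ℝ) * l2 + d) * lD = n * l2 * lD + d * lD := by ring
    have e6 : ((q : ℝ) * n + r) * l2 * lk = n * l2 * (q * lk) + r * l2 * lk := by ring
    have e7 : (n : ℝ) * l2 * (lD + Real.log (1 - y)) = n * l2 * lD + n * l2 * Real.log (1 - y) := by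
      ring
    have e8 : (n : ℝ) * l2 * -(6 / 5 * y) = -(n * l2 * (6 / 5 * y)) := by ring
    rw [e5, e6]
    rw [e7] at h7
    rw [e8] at h8
    linarith

end Pool.Agent.helper2.Fermat
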